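import Mathlib

/-!
Weighted Hardy-Littlewood inequality: functions `u` on `(0, ∞)` with two derivatives `v`, `w` such that
`x u²` and `x w²` are integrable.
-/

set_option autoImplicit false

open MeasureTheory Set Filter Topology

namespace Pool.Agent.X154.WHL

/-- `u` has derivative `v` and second derivative `w` on `(0, ∞)`, and `x u²`, `x w²` are
integrable. -/
structure Adm (u v w : ℝ → ℝ) : Prop where
  hu : ∀ x, 0 < x → HasDerivAt u (v x) x
  hv : ∀ x, 0 < x → HasDerivAt v (w x) x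
  mw : AEStronglyMeasurable w (volume.restrict (Ioi 0))
  iu : IntegrableOn (fun x => x * u x ^ 2) (Ioi 0)
  iw : IntegrableOn (fun x => x * w x ^ 2) (Ioi 0)

theorem mul_int {a b : ℝ → ℝ} (ma : AEStronglyMeasurable a (volume.restrict (Ioi 0)))
    (mb : AEStronglyMeasurable b (volume.restrict (Ioi 0)))
    (ia : IntegrableOn (fun x => x * a x ^ 2) (Ioi 0))
    (ib : IntegrableOn (fun x => x * b x ^ 2) (Ioi 0)) :
    IntegrableOn (fun x => x * (a x * b x)) (Ioi 0) := by
  refine Integrable.mono' (ia.add ib) ?_ ?_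
  · exact (measurable_id.aestronglyMeasurable).mul (ma.mul mb)
  · refine (ae_restrict_iff' measurableSet_Ioi).2 (Eventually.of_forall fun x hx => ?_)
    have hx : (0 : ℝ) < x := hx
    simp only [Pi.add_apply, Real.norm_eq_abs]
    rw [abs_le]
    constructor <;> nlinarith [mul_nonneg hx.le (sq_nonneg (a x + b x)),
      mul_nonneg hx.le (sq_nonneg (a x - b x)), mul_nonneg hx.le (sq_nonneg (a x)),
      mul_nonneg hx.le (sq_nonneg (b x))]

namespace Adm

variable {u v w : ℝ → ℝ}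

theorem cu (h : Adm u v w) : ContinuousOn u (Ioi 0) :=
  fun x hx => (h.hu x hx).continuousAt.continuousWithinAt

theorem cv (h : Adm u v w) : ContinuousOn v (Ioi 0) :=
  fun x hx => (h.hv x hx).continuousAt.continuousWithinAt

theorem mu (h : Adm u v w) : AEStronglyMeasurable u (volume.restrict (Ioi 0)) :=
  h.cu.aestronglyMeasurable measurableSet_Ioi

theorem mv (h : Adm u v w) : AEStronglyMeasurable v (volume.restrict (Ioi 0)) :=
  h.cv.aestronglyMeasurable measurableSet_Ioi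

theorem wint (h : Adm u v w) {a b : ℝ} (ha : 0 < a) (hab : a ≤ b) :
    IntervalIntegrable w volume a b := by
  rw [intervalIntegrable_iff_integrableOn_Ioc_of_le hab]
  have hs : Ioc a b ⊆ Ioi 0 := fun x hx => lt_trans ha hx.1
  have h1 : IntegrableOn (fun x => 1 + a⁻¹ * (x * w x ^ 2)) (Ioc a b) :=
    (integrableOn_const (by simp)).add ((h.iw.mono_set hs).const_mul _)
  refine Integrable.mono' h1 (h.mw.mono_set hs) ?_
  refine (ae_restrict_iff' measurableSet_Ioc).2 (Eventually.of_forall fun x hx => ?_)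
  have hx1 : a ≤ x := hx.1.le
  have h2 : w x ^ 2 ≤ a⁻¹ * (x * w x ^ 2) := by
    rw [← mul_assoc, inv_mul_eq_div]
    have h3 : 1 ≤ x / a := by rw [le_div_iff₀ ha]; linarith
    nlinarith [sq_nonneg (w x)]
  rw [Real.norm_eq_abs]
  have h4 : |w x| ≤ 1 + w x ^ 2 := by
    rw [abs_le]; constructor <;> nlinarith [sq_nonneg (w x + 1), sq_nonneg (w x - 1)]
  linarith

theorem ftcv (h : Adm u v w) {a b : ℝ} (ha : 0 < a) (hab : a ≤ b) :
    ∫ x in a..b, w x = v b - v a := by
  refine intervalIntegral.integral_eq_sub_of_hasDerivAt (fun x hx => h.hv x ?_) (h.wint ha hab)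
  rw [uIcc_of_le hab] at hx
  exact lt_of_lt_of_le ha hx.1

theorem le_A (h : Adm u v w) {a b : ℝ} (ha : 0 < a) (hab : a ≤ b) :
    ∫ x in a..b, x * w x ^ 2 ≤ ∫ x in Ioi 0, x * w x ^ 2 := by
  rw [intervalIntegral.integral_of_le hab]
  refine setIntegral_mono_set h.iw ?_ ?_
  · refine (ae_restrict_iff' measurableSet_Ioi).2 (Eventually.of_forall fun x hx => ?_)
    exact mul_nonneg (le_of_lt hx) (sq_nonneg _)
  · exact (Eventually.of_forall fun x hx => lt_trans ha hx.1)

theorem vdiff (h : Adm u v w) {a b : ℝ} (ha : 0 < a) (hab : a ≤ b) :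
    |v b - v a| ≤ (∫ x in Ioi 0, x * w x ^ 2) / 2 + (Real.log b - Real.log a) / 2 := by
  have hb : 0 < b := lt_of_lt_of_le ha hab
  have hs : Ioc a b ⊆ Ioi 0 := fun x hx => lt_trans ha hx.1
  have i1 : IntervalIntegrable (fun x => x * w x ^ 2) volume a b := by
    rw [intervalIntegrable_iff_integrableOn_Ioc_of_le hab]
    exact h.iw.mono_set hs
  have i2 : IntervalIntegrable (fun x : ℝ => x⁻¹) volume a b := by
    refine intervalIntegral.intervalIntegrable_inv (fun x hx => ?_) continuousOn_id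
    rw [uIcc_of_le hab] at hx
    exact (lt_of_lt_of_le ha hx.1).ne'
  have i3 : IntervalIntegrable (fun x => (1 / 2) * (x * w x ^ 2) + (1 / 2) * x⁻¹) volume a b :=
    (i1.const_mul _).add (i2.const_mul _)
  have h1 : ‖∫ x in a..b, w x‖ ≤ ∫ x in a..b, ((1 / 2) * (x * w x ^ 2) + (1 / 2) * x⁻¹) := by
    refine intervalIntegral.norm_integral_le_of_norm_le hab ?_ i3
    refine Eventually.of_forall fun x hx => ?_
    have hx0 : 0 < x := hs hx
    rw [Real.norm_eq_abs]
    have e1 : x * w x ^ 2 + x⁻¹ - 2 * |w x| = x⁻¹ * (x * |w x| - 1) ^ 2 := by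
      field_simp
      rw [← sq_abs (w x)]
      ring
    have e2 : 0 ≤ x⁻¹ * (x * |w x| - 1) ^ 2 := by positivity
    linarith
  rw [h.ftcv ha hab, intervalIntegral.integral_add (i1.const_mul _) (i2.const_mul _),
    intervalIntegral.integral_const_mul, intervalIntegral.integral_const_mul,
    integral_inv_of_pos ha hb, Real.log_div hb.ne' ha.ne'] at h1
  have h2 := h.le_A ha hab
  rw [Real.norm_eq_abs] at h1
  linarith

theorem vbound (h : Adm u v w) : ∃ C : ℝ, 0 ≤ C ∧ ∀ x, 0 < x → |v x| ≤ C + |Real.log x| / 2 := by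
  have hA : 0 ≤ ∫ x in Ioi 0, x * w x ^ 2 :=
    setIntegral_nonneg measurableSet_Ioi fun x hx => mul_nonneg (le_of_lt hx) (sq_nonneg _)
  refine ⟨|v 1| + (∫ x in Ioi 0, x * w x ^ 2) / 2, by positivity, fun x hx => ?_⟩
  rcases le_total x 1 with h1 | h1
  · have h2 := h.vdiff hx h1
    rw [Real.log_one] at h2
    have h3 : |v x| ≤ |v 1| + |v 1 - v x| := by
      have := abs_sub_abs_le_abs_sub (v x) (v 1)
      rw [abs_sub_comm] at this
      linarith
    have h4 : - Real.log x ≤ |Real.log x| := neg_le_abs _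
    linarith
  · have h2 := h.vdiff one_pos h1
    rw [Real.log_one] at h2
    have h3 : |v x| ≤ |v 1| + |v x - v 1| := by
      have := abs_sub_abs_le_abs_sub (v x) (v 1)
      linarith
    have h4 : Real.log x ≤ |Real.log x| := le_abs_self _
    linarith

theorem xv2_zero (h : Adm u v w) : Tendsto (fun x => x * v x ^ 2) (𝓝[>] 0) (𝓝 0) := by
  obtain ⟨C, hC, hb⟩ := h.vbound
  have h1 : Tendsto (fun x : ℝ => Real.log x * x ^ (1 / 2 : ℝ)) (𝓝[>] 0) (𝓝 0) :=
    tendsto_log_mul_rpow_nhdsGT_zero (by norm_num)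
  have h2 : Tendsto (fun x : ℝ => 2 * C ^ 2 * x + (Real.log x * x ^ (1 / 2 : ℝ)) ^ 2)
      (𝓝[>] 0) (𝓝 0) := by
    have h3 : Tendsto (fun x : ℝ => 2 * C ^ 2 * x) (𝓝[>] 0) (𝓝 (2 * C ^ 2 * 0)) :=
      (tendsto_id.const_mul _).mono_left nhdsWithin_le_nhds
    simpa using h3.add (h1.pow 2)
  refine squeeze_zero' ?_ ?_ h2
  · filter_upwards [self_mem_nhdsWithin] with x hx
    exact mul_nonneg (le_of_lt hx) (sq_nonneg _)
  · filter_upwards [self_mem_nhdsWithin] with x hx
    have hx : (0 : ℝ) < x := hx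
    have e1 : (x ^ (1 / 2 : ℝ)) ^ 2 = x := by
      rw [← Real.sqrt_eq_rpow, Real.sq_sqrt hx.le]
    have e2 : v x ^ 2 ≤ 2 * C ^ 2 + Real.log x ^ 2 := by
      rw [← sq_abs (v x), ← sq_abs (Real.log x)]
      have h4 := hb x hx
      have h5 : |v x| ^ 2 ≤ (C + |Real.log x| / 2) ^ 2 :=
        pow_le_pow_left₀ (abs_nonneg _) h4 2
      nlinarith [sq_nonneg (C - |Real.log x| / 2), sq_nonneg (|Real.log x|)]
    rw [mul_pow, e1]
    nlinarith

theorem xv_zero (h : Adm u v w) : Tendsto (fun x => x * v x) (𝓝[>] 0) (𝓝 0) := by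
  have h1 := h.xv2_zero
  have h2 : Tendsto (fun x : ℝ => x) (𝓝[>] 0) (𝓝 0) := tendsto_id.mono_left nhdsWithin_le_nhds
  have h3 : Tendsto (fun x : ℝ => x + x * v x ^ 2) (𝓝[>] 0) (𝓝 0) := by simpa using h2.add h1
  refine squeeze_zero_norm' ?_ h3
  filter_upwards [self_mem_nhdsWithin] with x hx
  have hx : (0 : ℝ) < x := hx
  rw [Real.norm_eq_abs, abs_mul, abs_of_pos hx]
  have : |v x| ≤ 1 + v x ^ 2 := by
    rw [abs_le]; constructor <;> nlinarith [sq_nonneg (v x + 1), sq_nonneg (v x - 1)]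
  nlinarith

theorem vint0 (h : Adm u v w) : IntegrableOn v (Ioc 0 1) := by
  obtain ⟨C, hC, hb⟩ := h.vbound
  have h1 : IntegrableOn (fun x => Real.log x) (Ioc 0 1) := by
    have := intervalIntegral.intervalIntegrable_log' (a := 0) (b := 1)
    rwa [intervalIntegrable_iff_integrableOn_Ioc_of_le zero_le_one] at this
  have h2 : IntegrableOn (fun x => C + |Real.log x| / 2) (Ioc 0 1) :=
    (integrableOn_const (by simp)).add (h1.abs.div_const 2)
  refine Integrable.mono' h2 (h.mv.mono_set fun x hx => hx.1) ?_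
  refine (ae_restrict_iff' measurableSet_Ioc).2 (Eventually.of_forall fun x hx => ?_)
  rw [Real.norm_eq_abs]
  exact hb x hx.1

theorem ftcu (h : Adm u v w) {a b : ℝ} (ha : 0 < a) (hab : a ≤ b) :
    ∫ x in a..b, v x = u b - u a := by
  have hs : ∀ x ∈ uIcc a b, 0 < x := by
    intro x hx
    rw [uIcc_of_le hab] at hx
    exact lt_of_lt_of_le ha hx.1
  refine intervalIntegral.integral_eq_sub_of_hasDerivAt (fun x hx => h.hu x (hs x hx)) ?_
  exact (h.cv.mono fun x hx => hs x hx).intervalIntegrable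

theorem ulim (h : Adm u v w) : ∃ L, Tendsto u (𝓝[>] 0) (𝓝 L) := by
  have h0 : IntegrableOn v (uIcc 0 1) := by
    rw [uIcc_of_le zero_le_one, integrableOn_Icc_iff_integrableOn_Ioc]
    exact h.vint0
  have h1 := intervalIntegral.continuousOn_primitive_interval_left h0
  have h2 : ContinuousWithinAt (fun x => ∫ t in x..1, v t) (uIcc 0 1) 0 :=
    h1 0 left_mem_uIcc
  have h3 : Tendsto (fun x => ∫ t in x..1, v t) (𝓝[>] 0) (𝓝 (∫ t in (0 : ℝ)..1, v t)) := by
    refine h2.tendsto.mono_left ?_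
    rw [← nhdsWithin_Ioc_eq_nhdsGT (zero_lt_one' ℝ)]
    refine nhdsWithin_mono _ ?_
    rw [uIcc_of_le zero_le_one]
    exact Ioc_subset_Icc_self
  refine ⟨u 1 - ∫ t in (0 : ℝ)..1, v t, ?_⟩
  refine (tendsto_const_nhds.sub h3).congr' ?_
  have : Ioc (0 : ℝ) 1 ∈ 𝓝[>] (0 : ℝ) := Ioc_mem_nhdsGT zero_lt_one
  filter_upwards [this] with x hx
  rw [h.ftcu hx.1 hx.2]
  ring

theorem growth (h : Adm u v w) : ∃ C : ℝ, 0 ≤ C ∧ ∀ x, 1 ≤ x → |v x| ≤ C * x ^ 2 ∧
    |u x| ≤ C * x ^ 2 := by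
  obtain ⟨C, hC, hb⟩ := h.vbound
  refine ⟨|u 1| + C + 1, by positivity, fun x hx => ?_⟩
  have hv : ∀ y, 1 ≤ y → |v y| ≤ C + y := by
    intro y hy
    have h1 := hb y (by linarith)
    have h2 : |Real.log y| ≤ y := by
      rw [abs_of_nonneg (Real.log_nonneg hy)]
      linarith [Real.log_le_sub_one_of_pos (show 0 < y by linarith)]
    have h3 : 0 ≤ |Real.log y| := abs_nonneg _
    linarith
  have hxx : x ≤ x ^ 2 := by nlinarith
  constructor
  · have h1 := hv x hx
    nlinarith [abs_nonneg (u 1)]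
  · have h1 : ‖u x - u 1‖ ≤ (C + x) * ‖x - 1‖ := by
      refine (convex_Icc 1 x).norm_image_sub_le_of_norm_hasDerivWithin_le (f' := v)
        (fun y hy => (h.hu y (by linarith [hy.1])).hasDerivWithinAt) (fun y hy => ?_)
        (left_mem_Icc.2 hx) (right_mem_Icc.2 hx)
      rw [Real.norm_eq_abs]
      linarith [hv y hy.1, hy.2]
    rw [Real.norm_eq_abs, Real.norm_eq_abs, abs_of_nonneg (by linarith : (0 : ℝ) ≤ x - 1)] at h1
    have h2 : |u x| ≤ |u 1| + |u x - u 1| := by
      have := abs_sub_abs_le_abs_sub (u x) (u 1)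
      linarith
    nlinarith [abs_nonneg (u 1)]

end Adm

end Pool.Agent.X154.WHL
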