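import Pool.Agent.X154.WHL.A

/-!
Weighted Hardy-Littlewood inequality: integrability of `x v²`, and positivity of the quadratic form on
functions which vanish at the origin.
-/

set_option autoImplicit false

open MeasureTheory Set Filter Topology

namespace Pool.Agent.X154.WHL

namespace Adm

variable {u v w : ℝ → ℝ}

theorem iuw (h : Adm u v w) : IntegrableOn (fun x => x * (u x * w x)) (Ioi 0) :=
  mul_int h.mu h.mw h.iu h.iw

/-- A nonnegative integrable function is not eventually bounded below. -/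
theorem not_ev {F : ℝ → ℝ} (hF : IntegrableOn F (Ioi 0)) {c : ℝ} (hc : 0 < c) :
    ¬ ∀ᶠ x in atTop, c ≤ F x := by
  intro hev
  obtain ⟨X, hX⟩ := eventually_atTop.1 hev
  have h1 : IntegrableOn (fun _ : ℝ => c) (Ioi (max X 0)) := by
    refine Integrable.mono' (hF.mono_set (Ioi_subset_Ioi (le_max_right _ _)))
      aestronglyMeasurable_const ?_
    refine (ae_restrict_iff' measurableSet_Ioi).2 (Eventually.of_forall fun x hx => ?_)
    have h2 := hX x (le_of_lt (lt_of_le_of_lt (le_max_left _ _) hx))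
    rw [Real.norm_eq_abs, abs_of_pos hc]
    exact h2
  rw [integrableOn_const_iff] at h1
  rcases h1 with h1 | h1
  · simp [hc.ne'] at h1
  · simp at h1

/-- The function `W = x u v - u² / 2` is at most one along a sequence. -/
theorem freqW (h : Adm u v w) : ∃ᶠ x in atTop, x * (u x * v x) - u x ^ 2 / 2 ≤ 1 := by
  intro hev
  have hev' : ∀ᶠ x in atTop, 1 < x * (u x * v x) - u x ^ 2 / 2 := by
    filter_upwards [hev] with x hx
    exact not_le.1 hx
  obtain ⟨X, hX⟩ := eventually_atTop.1 hev'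
  let Y : ℝ := max X 1
  have hY1 : 1 ≤ Y := le_max_right _ _
  have hYX : X ≤ Y := le_max_left _ _
  have hpos : ∀ x, Y ≤ x → 0 < u x * v x := by
    intro x hx
    have h1 := hX x (le_trans hYX hx)
    have hx0 : 0 < x := by linarith
    by_contra hneg
    push Not at hneg
    have : x * (u x * v x) ≤ 0 := mul_nonpos_of_nonneg_of_nonpos hx0.le hneg
    nlinarith [sq_nonneg (u x)]
  have hmono : MonotoneOn (fun x => u x ^ 2) (Ici Y) := by
    refine monotoneOn_of_deriv_nonneg (convex_Ici Y) ?_ ?_ ?_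
    · intro x hx
      have hx0 : 0 < x := lt_of_lt_of_le (by linarith) hx
      exact ((h.hu x hx0).continuousAt.pow 2).continuousWithinAt
    · intro x hx
      rw [interior_Ici] at hx
      have hx0 : 0 < x := lt_trans (by linarith) hx
      exact ((h.hu x hx0).pow 2).differentiableAt.differentiableWithinAt
    · intro x hx
      rw [interior_Ici] at hx
      have hx0 : 0 < x := lt_trans (by linarith) hx
      have h3 : HasDerivAt (fun x => u x ^ 2) (2 * u x * v x) x := by
        refine ((h.hu x hx0).pow 2).congr_deriv ?_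
        simp
      rw [h3.deriv]
      have := hpos x (le_of_lt hx)
      nlinarith
  have hc : 0 < u Y ^ 2 := by
    have := hpos Y le_rfl
    have hne : u Y ≠ 0 := by
      intro h0
      rw [h0, zero_mul] at this
      exact lt_irrefl _ this
    positivity
  refine not_ev h.iu hc ?_
  filter_upwards [eventually_ge_atTop Y] with x hx
  have h4 : u Y ^ 2 ≤ u x ^ 2 := hmono (mem_Ici.2 le_rfl) hx hx
  nlinarith [sq_nonneg (u x)]

theorem iv_one (h : Adm u v w) : IntegrableOn (fun x => x * v x ^ 2) (Ioi 1) := by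
  have hf := h.freqW
  rw [frequently_atTop] at hf
  choose b hb1 hb2 using hf
  let B : ℕ → ℝ := fun n => b (n + 1)
  have hBn : ∀ n : ℕ, (n : ℝ) + 1 ≤ B n := fun n => hb1 _
  have hB1 : ∀ n : ℕ, 1 ≤ B n := fun n => le_trans (by linarith [(Nat.cast_nonneg n : (0:ℝ) ≤ n)])
    (hBn n)
  have hBt : Tendsto B atTop atTop := by
    refine tendsto_atTop_mono (fun n => ?_) tendsto_natCast_atTop_atTop
    linarith [hBn n]
  have hcont : ContinuousOn (fun x => x * v x ^ 2) (Ioi 0) :=
    continuousOn_id.mul (h.cv.pow 2)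
  have hint : ∀ n, IntegrableOn (fun x => x * v x ^ 2) (Ioc 1 (B n)) := by
    intro n
    have : ContinuousOn (fun x => x * v x ^ 2) (Icc 1 (B n)) :=
      hcont.mono fun x hx => lt_of_lt_of_le one_pos hx.1
    exact this.integrableOn_Icc.mono_set Ioc_subset_Icc_self
  let A : ℝ := ∫ x in Ioi 0, x * w x ^ 2
  let I0 : ℝ := ∫ x in Ioi 0, x * u x ^ 2
  refine integrableOn_Ioi_of_intervalIntegral_norm_bounded
    (1 - (1 * (u 1 * v 1) - u 1 ^ 2 / 2) + ∫ x in Ioi 0, ‖x * (u x * w x)‖) 1 hint hBt ?_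
  refine Eventually.of_forall fun n => ?_
  have hn := hB1 n
  have e1 : ∫ x in (1:ℝ)..B n, ‖x * v x ^ 2‖ = ∫ x in (1:ℝ)..B n, x * v x ^ 2 := by
    refine intervalIntegral.integral_congr fun x hx => ?_
    rw [uIcc_of_le hn] at hx
    simp only [Real.norm_eq_abs]
    exact abs_of_nonneg (mul_nonneg (by linarith [hx.1]) (sq_nonneg _))
  rw [e1]
  have i1 : IntervalIntegrable (fun x => x * v x ^ 2) volume 1 (B n) := by
    rw [intervalIntegrable_iff_integrableOn_Ioc_of_le hn]
    exact hint n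
  have i2 : IntervalIntegrable (fun x => x * (u x * w x)) volume 1 (B n) := by
    rw [intervalIntegrable_iff_integrableOn_Ioc_of_le hn]
    exact h.iuw.mono_set fun x hx => lt_trans one_pos hx.1
  have e2 : ∫ x in (1:ℝ)..B n, (x * v x ^ 2 + x * (u x * w x)) =
      (B n * (u (B n) * v (B n)) - u (B n) ^ 2 / 2) - (1 * (u 1 * v 1) - u 1 ^ 2 / 2) := by
    refine intervalIntegral.integral_eq_sub_of_hasDerivAt
      (f := fun x => x * (u x * v x) - u x ^ 2 / 2) (fun x hx => ?_) (i1.add i2)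
    rw [uIcc_of_le hn] at hx
    have hx0 : 0 < x := lt_of_lt_of_le one_pos hx.1
    have d1 := (hasDerivAt_id x).mul ((h.hu x hx0).mul (h.hv x hx0))
    have d2 := ((h.hu x hx0).pow 2).div_const 2
    refine (d1.sub d2).congr_deriv ?_
    simp
    ring
  rw [intervalIntegral.integral_add i1 i2] at e2
  have e3 : ‖∫ x in (1:ℝ)..B n, x * (u x * w x)‖ ≤ ∫ x in Ioi 0, ‖x * (u x * w x)‖ := by
    refine (intervalIntegral.norm_integral_le_integral_norm hn).trans ?_
    rw [intervalIntegral.integral_of_le hn]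
    exact setIntegral_mono_set h.iuw.norm (Eventually.of_forall fun x => norm_nonneg _)
      (Eventually.of_forall fun x hx => lt_trans one_pos hx.1)
  rw [Real.norm_eq_abs, abs_le] at e3
  have e4 := hb2 (n + 1)
  have e5 : B n * (u (B n) * v (B n)) - u (B n) ^ 2 / 2 ≤ 1 := e4
  linarith [e3.1]

theorem iv_zero (h : Adm u v w) : IntegrableOn (fun x => x * v x ^ 2) (Ioc 0 1) := by
  have h1 := h.xv2_zero
  have h2 : ∀ᶠ x in 𝓝[>] (0 : ℝ), x * v x ^ 2 < 1 := h1.eventually (gt_mem_nhds one_pos)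
  obtain ⟨ε, hε, hε1⟩ := mem_nhdsGT_iff_exists_Ioo_subset.1 h2
  have hε : (0 : ℝ) < ε := hε
  have hcont : ContinuousOn (fun x => x * v x ^ 2) (Ioi 0) :=
    continuousOn_id.mul (h.cv.pow 2)
  let δ : ℝ := min (ε / 2) 1
  have hδ : 0 < δ := lt_min (by linarith) one_pos
  have hδε : δ < ε := lt_of_le_of_lt (min_le_left _ _) (by linarith)
  have hδ1 : δ ≤ 1 := min_le_right _ _
  have e1 : IntegrableOn (fun x => x * v x ^ 2) (Ioc 0 δ) := by
    refine Integrable.mono' (g := fun _ => (1 : ℝ)) (integrableOn_const (by simp)) ?_ ?_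
    · exact (hcont.aestronglyMeasurable measurableSet_Ioi).mono_set fun x hx => hx.1
    · refine (ae_restrict_iff' measurableSet_Ioc).2 (Eventually.of_forall fun x hx => ?_)
      rw [Real.norm_eq_abs, abs_of_nonneg (mul_nonneg hx.1.le (sq_nonneg _))]
      have : x * v x ^ 2 < 1 := hε1 ⟨hx.1, lt_of_le_of_lt hx.2 hδε⟩
      exact this.le
  have e2 : IntegrableOn (fun x => x * v x ^ 2) (Ioc δ 1) := by
    have : ContinuousOn (fun x => x * v x ^ 2) (Icc δ 1) :=
      hcont.mono fun x hx => lt_of_lt_of_le hδ hx.1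
    exact this.integrableOn_Icc.mono_set Ioc_subset_Icc_self
  rw [← Ioc_union_Ioc_eq_Ioc hδ.le hδ1]
  exact e1.union e2

theorem iv (h : Adm u v w) : IntegrableOn (fun x => x * v x ^ 2) (Ioi 0) := by
  rw [← Ioc_union_Ioi_eq_Ioi zero_le_one]
  exact h.iv_zero.union h.iv_one

/-- The integrand of the quadratic form. -/
def Fq (lam : ℝ) (u v w : ℝ → ℝ) (x : ℝ) : ℝ := x * w x ^ 2 - lam * (x * v x ^ 2) + x * u x ^ 2

theorem iF (h : Adm u v w) (lam : ℝ) : IntegrableOn (Fq lam u v w) (Ioi 0) :=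
  (h.iw.sub (h.iv.const_mul lam)).add h.iu

/-- Positivity of the quadratic form on functions which vanish at the origin. -/
theorem form_nonneg (h : Adm u v w) (h0 : Tendsto u (𝓝[>] 0) (𝓝 0)) {a : ℝ} (ha : 0 < a) :
    0 ≤ ∫ x in Ioi 0, Fq (2 - a ^ 2) u v w x := by
  set lam : ℝ := 2 - a ^ 2 with hlam
  let Ψ : ℝ → ℝ := fun x => u x ^ 2 - x * (a * v x ^ 2 + 2 * (u x * v x) + a * u x ^ 2)
  let Ψ' : ℝ → ℝ := fun x => 2 * (u x * v x) - (a * v x ^ 2 + 2 * (u x * v x) + a * u x ^ 2)
    - x * (2 * a * (v x * w x) + 2 * v x ^ 2 + 2 * (u x * w x) + 2 * a * (u x * v x))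
  have hΨ : ∀ x, 0 < x → HasDerivAt Ψ (Ψ' x) x := by
    intro x hx
    have du := h.hu x hx
    have dv := h.hv x hx
    have d1 := (du.pow 2).sub ((hasDerivAt_id x).mul
      ((((dv.pow 2).const_mul a).add ((du.mul dv).const_mul 2)).add ((du.pow 2).const_mul a)))
    refine d1.congr_deriv ?_
    simp only [Ψ']
    simp
    ring
  have hle : ∀ x, 0 < x → Ψ' x ≤ Fq lam u v w x := by
    intro x hx
    have e1 : Fq lam u v w x - Ψ' x = x * (w x + a * v x + u x) ^ 2 + a * (v x ^ 2 + u x ^ 2) := by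
      simp only [Fq, Ψ', hlam]
      ring
    have e2 : 0 ≤ x * (w x + a * v x + u x) ^ 2 + a * (v x ^ 2 + u x ^ 2) := by positivity
    linarith
  have hint : ∀ {c d : ℝ}, 0 < c → c ≤ d → IntervalIntegrable Ψ' volume c d := by
    intro c d hc hcd
    have cu' : ContinuousOn u (uIcc c d) := h.cu.mono fun x hx => by
      rw [uIcc_of_le hcd] at hx; exact lt_of_lt_of_le hc hx.1
    have cv' : ContinuousOn v (uIcc c d) := h.cv.mono fun x hx => by
      rw [uIcc_of_le hcd] at hx; exact lt_of_lt_of_le hc hx.1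
    have iw' := h.wint hc hcd
    have e : Ψ' = fun x => (2 * (u x * v x) - (a * v x ^ 2 + 2 * (u x * v x) + a * u x ^ 2)
        - x * (2 * v x ^ 2 + 2 * a * (u x * v x))) + (- (x * (2 * a * v x + 2 * u x))) * w x := by
      funext x
      simp only [Ψ']
      ring
    rw [e]
    refine IntervalIntegrable.add (ContinuousOn.intervalIntegrable ?_)
      (iw'.continuousOn_mul ?_)
    · fun_prop
    · fun_prop
  have hFint : ∀ {c d : ℝ}, 0 ≤ c → c ≤ d → IntervalIntegrable (Fq lam u v w) volume c d := by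
    intro c d hc hcd
    rw [intervalIntegrable_iff_integrableOn_Ioc_of_le hcd]
    exact (h.iF lam).mono_set fun x hx => lt_of_le_of_lt hc hx.1
  have hineq : ∀ {c d : ℝ}, 0 < c → c ≤ d → Ψ d - Ψ c ≤ ∫ x in c..d, Fq lam u v w x := by
    intro c d hc hcd
    have e1 : ∫ x in c..d, Ψ' x = Ψ d - Ψ c := by
      refine intervalIntegral.integral_eq_sub_of_hasDerivAt (fun x hx => hΨ x ?_) (hint hc hcd)
      rw [uIcc_of_le hcd] at hx
      exact lt_of_lt_of_le hc hx.1
    rw [← e1]
    refine intervalIntegral.integral_mono_on hcd (hint hc hcd) (hFint hc.le hcd) fun x hx => ?_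
    exact hle x (lt_of_lt_of_le hc hx.1)
  have hΨ0 : Tendsto Ψ (𝓝[>] 0) (𝓝 0) := by
    have hx : Tendsto (fun x : ℝ => x) (𝓝[>] 0) (𝓝 0) := tendsto_id.mono_left nhdsWithin_le_nhds
    have e : Ψ = fun x => u x ^ 2 - (a * (x * v x ^ 2) + 2 * (u x * (x * v x)) +
        a * (x * u x ^ 2)) := by
      funext x
      simp only [Ψ]
      ring
    rw [e]
    have := (h0.pow 2).sub (((h.xv2_zero.const_mul a).add ((h0.mul h.xv_zero).const_mul 2)).add
      ((hx.mul (h0.pow 2)).const_mul a))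
    simpa using this
  have hineq0 : ∀ d, 0 < d → Ψ d ≤ ∫ x in (0:ℝ)..d, Fq lam u v w x := by
    intro d hd
    have i0 : IntegrableOn (Fq lam u v w) (uIcc 0 d) := by
      rw [uIcc_of_le hd.le, integrableOn_Icc_iff_integrableOn_Ioc]
      exact (h.iF lam).mono_set fun x hx => hx.1
    have h1 := intervalIntegral.continuousOn_primitive_interval_left i0
    have h2 : ContinuousWithinAt (fun x => ∫ t in x..d, Fq lam u v w t) (uIcc 0 d) 0 :=
      h1 0 left_mem_uIcc
    have h3 : Tendsto (fun x => ∫ t in x..d, Fq lam u v w t) (𝓝[>] 0)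
        (𝓝 (∫ t in (0 : ℝ)..d, Fq lam u v w t)) := by
      refine h2.tendsto.mono_left ?_
      rw [← nhdsWithin_Ioc_eq_nhdsGT hd]
      refine nhdsWithin_mono _ ?_
      rw [uIcc_of_le hd.le]
      exact Ioc_subset_Icc_self
    have h4 : Tendsto (fun x => Ψ d - Ψ x) (𝓝[>] 0) (𝓝 (Ψ d - 0)) := tendsto_const_nhds.sub hΨ0
    rw [sub_zero] at h4
    refine le_of_tendsto_of_tendsto h4 h3 ?_
    have : Ioc (0 : ℝ) d ∈ 𝓝[>] (0 : ℝ) := Ioc_mem_nhdsGT hd
    filter_upwards [this] with x hx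
    exact hineq hx.1 hx.2
  have hlim := intervalIntegral_tendsto_integral_Ioi 0 (h.iF lam) tendsto_id
  by_contra hneg
  push Not at hneg
  set J : ℝ := ∫ x in Ioi 0, Fq lam u v w x with hJ
  have h5 : ∀ᶠ d in atTop, ∫ x in (0:ℝ)..(id d), Fq lam u v w x < J / 2 :=
    hlim.eventually (gt_mem_nhds (by linarith))
  have hsum : IntegrableOn (fun x => (a + 1) * (x * u x ^ 2 + x * v x ^ 2)) (Ioi 0) :=
    (h.iu.add h.iv).const_mul _
  have hc : 0 < - (J / 2) := by linarith
  refine not_ev hsum hc ?_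
  filter_upwards [h5, eventually_gt_atTop 0] with d hd hd0
  have h6 := hineq0 d hd0
  have h7 : Ψ d < J / 2 := lt_of_le_of_lt h6 hd
  have h8 : - Ψ d ≤ (a + 1) * (d * u d ^ 2 + d * v d ^ 2) := by
    have e1 : (a + 1) * (d * u d ^ 2 + d * v d ^ 2) + Ψ d = u d ^ 2 + d * (u d - v d) ^ 2 := by
      simp only [Ψ]
      ring
    have e2 : 0 ≤ u d ^ 2 + d * (u d - v d) ^ 2 := by positivity
    linarith
  linarith

end Adm

end Pool.Agent.X154.WHL
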