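import Pool.Agent.X154.WHL.A2

/-!
Weighted Hardy-Littlewood inequality: the extremal function
`g x = ∫_0^{π/2} e^{-x Δ} cos (x k sin u) / Δ du`, `Δ = √(1 - k² sin² u)`.
-/

set_option autoImplicit false
set_option linter.unusedSectionVars false

open MeasureTheory Set Filter Topology

namespace Pool.Agent.X154.WHL

/-- `√(1 - k² sin² u)` -/
noncomputable def D (k u : ℝ) : ℝ := √(1 - k ^ 2 * Real.sin u ^ 2)

/-- The complete elliptic integral of the second kind, with modulus `k`. -/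
noncomputable def ellE (k : ℝ) : ℝ := ∫ u in (0 : ℝ)..(Real.pi / 2), √(1 - k ^ 2 * Real.sin u ^ 2)

/-- The complete elliptic integral of the first kind, with modulus `k`. -/
noncomputable def ellK (k : ℝ) : ℝ :=
  ∫ u in (0 : ℝ)..(Real.pi / 2), 1 / √(1 - k ^ 2 * Real.sin u ^ 2)

/-- The point `√(1 - k² sin² u) + i k sin u` of the unit circle. -/
noncomputable def Z (k u : ℝ) : ℂ := (D k u : ℂ) + ((k * Real.sin u : ℝ) : ℂ) * Complex.I

/-- Complex moments. -/
noncomputable def G (k : ℝ) (j : ℕ) (x : ℝ) : ℂ :=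
  ∫ u in (0 : ℝ)..(Real.pi / 2), Z k u ^ j * Complex.exp (-((x : ℂ) * Z k u)) / (D k u : ℂ)

/-- Real moments. -/
noncomputable def M (k : ℝ) (j : ℕ) (x : ℝ) : ℝ := (G k j x).re

section
variable {k : ℝ} (hk0 : 0 < k) (hk1 : k < 1)
include hk0 hk1

theorem k2lt : k ^ 2 < 1 := by nlinarith

theorem rad_pos (u : ℝ) : 1 - k ^ 2 ≤ 1 - k ^ 2 * Real.sin u ^ 2 := by
  nlinarith [Real.sin_sq_le_one u, sq_nonneg k]

theorem D_sq (u : ℝ) : D k u ^ 2 = 1 - k ^ 2 * Real.sin u ^ 2 := by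
  rw [D, Real.sq_sqrt]
  have := rad_pos hk0 hk1 u
  have := k2lt hk0 hk1
  linarith

theorem dl_pos : 0 < √(1 - k ^ 2) := Real.sqrt_pos.2 (by linarith [k2lt hk0 hk1])

theorem D_ge (u : ℝ) : √(1 - k ^ 2) ≤ D k u := Real.sqrt_le_sqrt (rad_pos hk0 hk1 u)

theorem D_pos (u : ℝ) : 0 < D k u := lt_of_lt_of_le (dl_pos hk0 hk1) (D_ge hk0 hk1 u)

theorem D_le (u : ℝ) : D k u ≤ 1 := by
  rw [D]
  refine Real.sqrt_le_one.2 ?_
  nlinarith [sq_nonneg (k * Real.sin u)]

theorem D_cont : Continuous (D k) := by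
  unfold D
  fun_prop

theorem Z_cont : Continuous (Z k) := by
  have := D_cont hk0 hk1
  unfold Z
  fun_prop

theorem normZ (u : ℝ) : ‖Z k u‖ = 1 := by
  have h1 : ‖Z k u‖ ^ 2 = 1 := by
    rw [← Complex.normSq_eq_norm_sq, Z, Complex.normSq_add_mul_I, D_sq hk0 hk1]
    ring
  have h2 : 0 ≤ ‖Z k u‖ := norm_nonneg _
  nlinarith

theorem reZ (u : ℝ) : (Z k u).re = D k u := by
  simp [Z]

/-- The integrand. -/
theorem F_cont (j : ℕ) (x : ℝ) :
    Continuous fun u => Z k u ^ j * Complex.exp (-((x : ℂ) * Z k u)) / (D k u : ℂ) := by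
  have h1 := Z_cont hk0 hk1
  have h2 := D_cont hk0 hk1
  refine Continuous.div (by fun_prop) (by fun_prop) fun u => ?_
  exact_mod_cast (D_pos hk0 hk1 u).ne'

theorem F_norm (j : ℕ) (x u : ℝ) :
    ‖Z k u ^ j * Complex.exp (-((x : ℂ) * Z k u)) / (D k u : ℂ)‖ =
      Real.exp (-(x * D k u)) / D k u := by
  rw [norm_div, norm_mul, norm_pow, normZ hk0 hk1, one_pow, one_mul, Complex.norm_exp,
    Complex.norm_real, Real.norm_eq_abs, abs_of_pos (D_pos hk0 hk1 u)]
  congr 2
  simp [reZ hk0 hk1]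

theorem F_norm_le {j : ℕ} {x u B : ℝ} (hB : -(x * D k u) ≤ B) :
    ‖Z k u ^ j * Complex.exp (-((x : ℂ) * Z k u)) / (D k u : ℂ)‖ ≤
      Real.exp B / √(1 - k ^ 2) := by
  rw [F_norm hk0 hk1]
  exact div_le_div₀ (Real.exp_pos _).le (Real.exp_le_exp.2 hB) (dl_pos hk0 hk1) (D_ge hk0 hk1 u)

theorem G_deriv (j : ℕ) (x : ℝ) : HasDerivAt (G k j) (-G k (j + 1) x) x := by
  have hd : ∀ u y : ℝ, HasDerivAt
      (fun y : ℝ => Z k u ^ j * Complex.exp (-((y : ℂ) * Z k u)) / (D k u : ℂ))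
      (-(Z k u ^ (j + 1) * Complex.exp (-((y : ℂ) * Z k u)) / (D k u : ℂ))) y := by
    intro u y
    have h1 : HasDerivAt (fun y : ℝ => (y : ℂ)) 1 y := Complex.ofRealCLM.hasDerivAt
    have h2 := ((((h1.mul_const (Z k u)).neg).cexp).const_mul (Z k u ^ j)).div_const (D k u : ℂ)
    refine h2.congr_deriv ?_
    simp only [Pi.neg_apply, one_mul]
    ring
  have key := intervalIntegral.hasDerivAt_integral_of_dominated_loc_of_deriv_le
    (μ := volume) (a := 0) (b := Real.pi / 2)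
    (F := fun (y : ℝ) (u : ℝ) => Z k u ^ j * Complex.exp (-((y : ℂ) * Z k u)) / (D k u : ℂ))
    (F' := fun (y : ℝ) (u : ℝ) =>
      -(Z k u ^ (j + 1) * Complex.exp (-((y : ℂ) * Z k u)) / (D k u : ℂ)))
    (x₀ := x) (s := Metric.ball x 1) (bound := fun _ => Real.exp (|x| + 1) / √(1 - k ^ 2))
    (Metric.ball_mem_nhds x one_pos)
    (Eventually.of_forall fun y => (F_cont hk0 hk1 j y).aestronglyMeasurable)
    ((F_cont hk0 hk1 j x).intervalIntegrable _ _)
    ((F_cont hk0 hk1 (j + 1) x).neg.aestronglyMeasurable)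
    (Eventually.of_forall fun u _ y hy => by
      rw [norm_neg]
      refine F_norm_le hk0 hk1 ?_
      rw [Metric.mem_ball, Real.dist_eq] at hy
      have h1 : |y| ≤ |x| + 1 := by
        have := abs_sub_abs_le_abs_sub y x
        linarith
      have h2 : -(y * D k u) ≤ |y| * D k u := by
        rw [← neg_mul]
        exact mul_le_mul_of_nonneg_right (neg_le_abs y) (D_pos hk0 hk1 u).le
      have h3 : |y| * D k u ≤ |y| * 1 :=
        mul_le_mul_of_nonneg_left (D_le hk0 hk1 u) (abs_nonneg _)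
      linarith)
    intervalIntegrable_const
    (Eventually.of_forall fun u _ y _ => hd u y)
  have h2 := key.2
  rw [intervalIntegral.integral_neg] at h2
  exact h2

theorem M_deriv (j : ℕ) (x : ℝ) : HasDerivAt (M k j) (-M k (j + 1) x) x := by
  have h1 := (Complex.reCLM.hasFDerivAt (x := G k j x)).comp_hasDerivAt x (G_deriv hk0 hk1 j x)
  refine HasDerivAt.congr_deriv (f := M k j) h1 ?_
  simp [M]

theorem M_cont (j : ℕ) : Continuous (M k j) :=
  continuous_iff_continuousAt.2 fun x => (M_deriv hk0 hk1 j x).continuousAt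

theorem M_decay (j : ℕ) {x : ℝ} (hx : 0 ≤ x) :
    |M k j x| ≤ Real.pi / 2 / √(1 - k ^ 2) * Real.exp (-(√(1 - k ^ 2) * x)) := by
  have h1 : |M k j x| ≤ ‖G k j x‖ := Complex.abs_re_le_norm _
  have h2 : ‖G k j x‖ ≤ Real.exp (-(√(1 - k ^ 2) * x)) / √(1 - k ^ 2) * |Real.pi / 2 - 0| := by
    refine intervalIntegral.norm_integral_le_of_norm_le_const fun u _ => ?_
    refine F_norm_le hk0 hk1 ?_
    have := D_ge hk0 hk1 u
    nlinarith
  have h3 : |Real.pi / 2 - 0| = Real.pi / 2 := by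
    rw [sub_zero, abs_of_pos (by positivity)]
  rw [h3] at h2
  calc |M k j x| ≤ ‖G k j x‖ := h1
    _ ≤ _ := h2
    _ = _ := by ring

theorem D_deriv (u : ℝ) :
    HasDerivAt (D k) (-(k ^ 2 * Real.sin u * Real.cos u) / D k u) u := by
  have h1 : HasDerivAt (fun u => 1 - k ^ 2 * Real.sin u ^ 2)
      (-(k ^ 2 * (2 * Real.sin u * Real.cos u))) u := by
    have := (((Real.hasDerivAt_sin u).pow 2).const_mul (k ^ 2)).const_sub 1
    refine this.congr_deriv ?_
    simp
  have h2 : 1 - k ^ 2 * Real.sin u ^ 2 ≠ 0 := by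
    have := rad_pos hk0 hk1 u
    have := k2lt hk0 hk1
    linarith
  have h3 := h1.sqrt h2
  refine HasDerivAt.congr_deriv (f := D k) h3 ?_
  rw [D]
  field_simp

theorem Z_deriv (u : ℝ) :
    HasDerivAt (Z k) (Complex.I * (k * Real.cos u : ℝ) * Z k u / (D k u : ℂ)) u := by
  have h1 : HasDerivAt (fun u => ((D k u : ℝ) : ℂ))
      ((-(k ^ 2 * Real.sin u * Real.cos u) / D k u : ℝ) : ℂ) u := (D_deriv hk0 hk1 u).ofReal_comp
  have h2 : HasDerivAt (fun u => ((k * Real.sin u : ℝ) : ℂ)) ((k * Real.cos u : ℝ) : ℂ) u :=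
    ((Real.hasDerivAt_sin u).const_mul k).ofReal_comp
  have h3 := h1.add (h2.mul_const Complex.I)
  refine HasDerivAt.congr_deriv (f := Z k) h3 ?_
  have hD : (D k u : ℂ) ≠ 0 := by exact_mod_cast (D_pos hk0 hk1 u).ne'
  rw [Z]
  push_cast
  field_simp
  linear_combination (-(k : ℂ) * Complex.sin u) * Complex.I_sq * (k : ℂ) * Complex.cos u

theorem ode (x : ℝ) : x * (M k 4 x + 2 * (2 * k ^ 2 - 1) * M k 2 x + M k 0 x) =
    2 * M k 3 x + 2 * (2 * k ^ 2 - 1) * M k 1 x := by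
  let lam : ℂ := 2 * (2 * (k : ℂ) ^ 2 - 1)
  let e : ℝ → ℂ := fun u => Complex.exp (-((x : ℂ) * Z k u))
  let F : ℕ → ℝ → ℂ := fun j u => Z k u ^ j * e u / (D k u : ℂ)
  have hF : ∀ j, IntervalIntegrable (F j) volume 0 (Real.pi / 2) := fun j =>
    (F_cont hk0 hk1 j x).intervalIntegrable _ _
  let H : ℝ → ℂ := fun u => 4 * Complex.I * (k : ℂ) * ((Real.cos u : ℝ) : ℂ) * Z k u * e u
  have hH : ∀ u, HasDerivAt H ((x : ℂ) * (F 4 u + lam * F 2 u + F 0 u) -
      (2 * F 3 u + lam * F 1 u)) u := by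
    intro u
    have d1 : HasDerivAt (fun u => ((Real.cos u : ℝ) : ℂ)) ((-Real.sin u : ℝ) : ℂ) u :=
      (Real.hasDerivAt_cos u).ofReal_comp
    have d2 := Z_deriv hk0 hk1 u
    have d3 : HasDerivAt e (e u * (-((x : ℂ) *
        (Complex.I * (k * Real.cos u : ℝ) * Z k u / (D k u : ℂ))))) u :=
      ((d2.const_mul (x : ℂ)).neg).cexp
    have d4 := ((d1.const_mul (4 * Complex.I * (k : ℂ))).mul d2).mul d3
    refine d4.congr_deriv ?_
    have hD : (D k u : ℂ) ≠ 0 := by exact_mod_cast (D_pos hk0 hk1 u).ne'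
    have hs : (D k u : ℂ) ^ 2 = 1 - (k : ℂ) ^ 2 * Complex.sin u ^ 2 := by
      have := D_sq hk0 hk1 u
      exact_mod_cast congrArg (fun t : ℝ => (t : ℂ)) this
    have hc : Complex.cos u ^ 2 = 1 - Complex.sin u ^ 2 := by
      rw [← Complex.sin_sq_add_cos_sq (u : ℂ)]; ring
    have hZ : Z k u = (D k u : ℂ) + (k : ℂ) * Complex.sin u * Complex.I := by
      simp [Z]
    have i1 : Z k u ^ 4 + lam * Z k u ^ 2 + 1 = 4 * (k : ℂ) ^ 2 * Complex.cos u ^ 2 * Z k u ^ 2 := by
      have hN : Z k u * ((D k u : ℂ) - (k : ℂ) * Complex.sin u * Complex.I) = 1 := by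
        rw [hZ]
        linear_combination hs - (k : ℂ) ^ 2 * Complex.sin u ^ 2 * Complex.I_sq
      have hS : Z k u ^ 2 + ((D k u : ℂ) - (k : ℂ) * Complex.sin u * Complex.I) ^ 2 =
          2 - 4 * (k : ℂ) ^ 2 * Complex.sin u ^ 2 := by
        rw [hZ]
        linear_combination 2 * hs + 2 * (k : ℂ) ^ 2 * Complex.sin u ^ 2 * Complex.I_sq
      simp only [lam]
      rw [hc]
      linear_combination Z k u ^ 2 * hS - (Z k u * ((D k u : ℂ) -
        (k : ℂ) * Complex.sin u * Complex.I) + 1) * hN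
    have i2 : 2 * Z k u ^ 3 + lam * Z k u = 4 * Complex.I * (k : ℂ) * Complex.sin u * (D k u : ℂ) *
        Z k u + 4 * (k : ℂ) ^ 2 * Complex.cos u ^ 2 * Z k u := by
      have h5 : 2 * Z k u ^ 2 + lam = 4 * Complex.I * (k : ℂ) * Complex.sin u * (D k u : ℂ) +
          4 * (k : ℂ) ^ 2 * Complex.cos u ^ 2 := by
        simp only [lam]
        rw [hc, hZ]
        linear_combination 2 * hs + 2 * (k : ℂ) ^ 2 * Complex.sin u ^ 2 * Complex.I_sq
      linear_combination Z k u * h5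
    simp only [F]
    push_cast
    have e1 : (x : ℂ) * (Z k u ^ 4 * e u / (D k u : ℂ) + lam * (Z k u ^ 2 * e u / (D k u : ℂ)) +
        Z k u ^ 0 * e u / (D k u : ℂ)) - (2 * (Z k u ^ 3 * e u / (D k u : ℂ)) +
        lam * (Z k u ^ 1 * e u / (D k u : ℂ))) =
        (x * (Z k u ^ 4 + lam * Z k u ^ 2 + 1) - (2 * Z k u ^ 3 + lam * Z k u)) * e u /
          (D k u : ℂ) := by
      field_simp
    rw [e1, i1, i2]
    simp only [Pi.mul_apply]
    field_simp
    linear_combination (((k : ℂ) ^ 2 * Complex.cos u ^ 2 * Z k u -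
      (k : ℂ) ^ 2 * Complex.cos u ^ 2 * Z k u ^ 2 * x) * e u) * Complex.I_sq
  have hI : ∫ u in (0 : ℝ)..(Real.pi / 2), ((x : ℂ) * (F 4 u + lam * F 2 u + F 0 u) -
      (2 * F 3 u + lam * F 1 u)) = H (Real.pi / 2) - H 0 := by
    refine intervalIntegral.integral_eq_sub_of_hasDerivAt (fun u _ => hH u) ?_
    exact ((((hF 4).add ((hF 2).const_mul lam)).add (hF 0)).const_mul _).sub
      (((hF 3).const_mul _).add ((hF 1).const_mul _))
  rw [intervalIntegral.integral_sub ((((hF 4).add ((hF 2).const_mul lam)).add (hF 0)).const_mul _)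
    (((hF 3).const_mul _).add ((hF 1).const_mul _)), intervalIntegral.integral_const_mul,
    intervalIntegral.integral_add ((hF 4).add ((hF 2).const_mul lam)) (hF 0),
    intervalIntegral.integral_add (hF 4) ((hF 2).const_mul lam),
    intervalIntegral.integral_const_mul, intervalIntegral.integral_add ((hF 3).const_mul _)
    ((hF 1).const_mul _), intervalIntegral.integral_const_mul,
    intervalIntegral.integral_const_mul] at hI
  have hG : ∀ j, ∫ u in (0 : ℝ)..(Real.pi / 2), F j u = G k j x := fun j => rfl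
  simp only [hG] at hI
  have hre := congrArg Complex.re hI
  have hH1 : H (Real.pi / 2) = 0 := by simp [H]
  have hZ0 : Z k 0 = 1 := by simp [Z, D]
  have hH0 : (H 0).re = 0 := by
    simp only [H, e, hZ0]
    have : Complex.exp (-((x : ℂ) * 1)) = ((Real.exp (-x) : ℝ) : ℂ) := by
      push_cast
      rw [mul_one]
    rw [this]
    simp
    right
    rw [← Complex.ofReal_neg, ← Complex.ofReal_exp]
    exact Complex.ofReal_im _
  have hlam : lam = ((2 * (2 * k ^ 2 - 1) : ℝ) : ℂ) := by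
    simp only [lam]
    push_cast
    ring
  rw [hH1, hlam] at hre
  simp only [Complex.sub_re, Complex.zero_re, hH0, Complex.re_ofReal_mul, Complex.add_re] at hre
  have h2 : ∀ c : ℂ, (2 * c).re = 2 * c.re := fun c => by simp
  rw [h2] at hre
  simp only [M]
  linarith

theorem M2_zero : M k 2 0 = 2 * ellE k - ellK k := by
  have h1 : M k 2 0 = ∫ u in (0 : ℝ)..(Real.pi / 2), (Z k u ^ 2 * Complex.exp (-(((0 : ℝ) : ℂ) *
      Z k u)) / (D k u : ℂ)).re := by
    have := ContinuousLinearMap.intervalIntegral_comp_comm Complex.reCLM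
      ((F_cont hk0 hk1 2 0).intervalIntegrable (μ := volume) 0 (Real.pi / 2))
    simp only [Complex.reCLM_apply] at this
    rw [this]
    rfl
  have h2 : ∀ u, (Z k u ^ 2 * Complex.exp (-(((0 : ℝ) : ℂ) * Z k u)) / (D k u : ℂ)).re =
      2 * D k u - 1 / D k u := by
    intro u
    have hD := (D_pos hk0 hk1 u).ne'
    have e1 : (Z k u ^ 2).re = 2 * D k u ^ 2 - 1 := by
      have hr : (Z k u).re = D k u := reZ hk0 hk1 u
      have hi : (Z k u).im = k * Real.sin u := by
        rw [Z, Complex.add_im, Complex.ofReal_im, Complex.mul_I_im, Complex.ofReal_re, zero_add]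
      rw [sq, Complex.mul_re, hr, hi]
      have := D_sq hk0 hk1 u
      linear_combination -this
    rw [Complex.div_ofReal_re]
    simp only [Complex.ofReal_zero, zero_mul, neg_zero, Complex.exp_zero, mul_one]
    rw [e1]
    field_simp
  rw [h1]
  simp only [h2]
  have c1 : IntervalIntegrable (fun u => D k u) volume 0 (Real.pi / 2) :=
    (D_cont hk0 hk1).intervalIntegrable _ _
  have c2 : IntervalIntegrable (fun u => 1 / D k u) volume 0 (Real.pi / 2) :=
    (continuous_const.div (D_cont hk0 hk1) fun u => (D_pos hk0 hk1 u).ne').intervalIntegrable _ _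
  rw [intervalIntegral.integral_sub (c1.const_mul 2) c2, intervalIntegral.integral_const_mul]
  rfl

theorem M0_zero : M k 0 0 = ellK k := by
  have h1 : M k 0 0 = ∫ u in (0 : ℝ)..(Real.pi / 2), (Z k u ^ 0 * Complex.exp (-(((0 : ℝ) : ℂ) *
      Z k u)) / (D k u : ℂ)).re := by
    have := ContinuousLinearMap.intervalIntegral_comp_comm Complex.reCLM
      ((F_cont hk0 hk1 0 0).intervalIntegrable (μ := volume) 0 (Real.pi / 2))
    simp only [Complex.reCLM_apply] at this
    rw [this]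
    rfl
  have h2 : ∀ u, (Z k u ^ 0 * Complex.exp (-(((0 : ℝ) : ℂ) * Z k u)) / (D k u : ℂ)).re =
      1 / D k u := by
    intro u
    rw [Complex.div_ofReal_re]
    simp
  rw [h1]
  simp only [h2]
  rfl

theorem ellK_pos : 0 < ellK k := by
  refine intervalIntegral.intervalIntegral_pos_of_pos ?_ (fun u => ?_) (by positivity)
  · exact (continuous_const.div (D_cont hk0 hk1)
      fun u => (D_pos hk0 hk1 u).ne').intervalIntegrable _ _
  · exact one_div_pos.2 (D_pos hk0 hk1 u)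

end

end Pool.Agent.X154.WHL
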