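import Pool.Agent.X154.WHL.B

/-!
Weighted Hardy-Littlewood inequality: the extremal function is orthogonal to every admissible function
for the quadratic form, and the form is nonnegative.
-/

set_option autoImplicit false
set_option linter.unusedSectionVars false

open MeasureTheory Set Filter Topology

namespace Pool.Agent.X154.WHL

section
variable {k : ℝ} (hk0 : 0 < k) (hk1 : k < 1)
include hk0 hk1

theorem x3exp {d : ℝ} (hd : 0 < d) : Tendsto (fun x : ℝ => x ^ 3 * Real.exp (-(d * x))) atTop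
    (𝓝 0) := by
  have h1 := (Real.tendsto_pow_mul_exp_neg_atTop_nhds_zero 3).comp
    (tendsto_id.const_mul_atTop hd)
  have h2 := h1.const_mul ((d ^ 3)⁻¹)
  rw [mul_zero] at h2
  refine h2.congr fun x => ?_
  simp only [Function.comp_apply, id]
  rw [mul_pow]
  field_simp

/-- The extremal function is admissible. -/
theorem g_adm : Adm (M k 0) (fun x => -M k 1 x) (M k 2) := by
  have hM : ∀ j, IntegrableOn (fun x => x * M k j x ^ 2) (Ioi 0) := by
    intro j
    set d : ℝ := √(1 - k ^ 2) with hd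
    have hdp : 0 < d := dl_pos hk0 hk1
    set c : ℝ := Real.pi / 2 / d with hc
    have hcp : 0 < c := by positivity
    have h1 : IntegrableOn (fun x => c ^ 2 / d * Real.exp (-d * x)) (Ioi 0) :=
      (exp_neg_integrableOn_Ioi 0 hdp).const_mul _
    refine Integrable.mono' h1 ?_ ?_
    · have := M_cont hk0 hk1 j
      exact (by fun_prop : Continuous fun x => x * M k j x ^ 2).aestronglyMeasurable
    · refine (ae_restrict_iff' measurableSet_Ioi).2 (Eventually.of_forall fun x hx => ?_)
      have hx : (0 : ℝ) < x := hx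
      rw [Real.norm_eq_abs, abs_of_nonneg (by positivity)]
      have h2 := M_decay hk0 hk1 j hx.le
      rw [← hd, ← hc] at h2
      have h3 : M k j x ^ 2 ≤ (c * Real.exp (-(d * x))) ^ 2 := by
        rw [← sq_abs (M k j x)]
        exact pow_le_pow_left₀ (abs_nonneg _) h2 2
      have h4 : d * x ≤ Real.exp (d * x) := by
        linarith [Real.add_one_le_exp (d * x)]
      have h5 : Real.exp (-(d * x)) * Real.exp (d * x) = 1 := by
        rw [← Real.exp_add]; simp
      have h6 : x * Real.exp (-(d * x)) ≤ 1 / d := by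
        rw [le_div_iff₀ hdp]
        calc x * Real.exp (-(d * x)) * d = Real.exp (-(d * x)) * (d * x) := by ring
          _ ≤ Real.exp (-(d * x)) * Real.exp (d * x) :=
            mul_le_mul_of_nonneg_left h4 (Real.exp_pos _).le
          _ = 1 := h5
      calc x * M k j x ^ 2 ≤ x * (c * Real.exp (-(d * x))) ^ 2 :=
            mul_le_mul_of_nonneg_left h3 hx.le
        _ = c ^ 2 * Real.exp (-(d * x)) * (x * Real.exp (-(d * x))) := by ring
        _ ≤ c ^ 2 * Real.exp (-(d * x)) * (1 / d) :=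
            mul_le_mul_of_nonneg_left h6 (by positivity)
        _ = c ^ 2 / d * Real.exp (-d * x) := by
            rw [neg_mul]; ring
  refine ⟨fun x _ => M_deriv hk0 hk1 0 x, fun x _ => ?_, ?_, hM 0, hM 2⟩
  · exact ((M_deriv hk0 hk1 1 x).neg).congr_deriv (by simp)
  · exact (M_cont hk0 hk1 2).aestronglyMeasurable

/-- Orthogonality. -/
theorem orth (hroot : 2 * ellE k = ellK k) {u v w : ℝ → ℝ} (h : Adm u v w) :
    ∫ x in Ioi 0, (x * (M k 2 x * w x) - 2 * (2 * k ^ 2 - 1) * (x * ((-M k 1 x) * v x)) +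
      x * (M k 0 x * u x)) = 0 := by
  set lam : ℝ := 2 * (2 * k ^ 2 - 1) with hlam
  have hg := g_adm hk0 hk1
  have i1 : IntegrableOn (fun x => x * (M k 2 x * w x)) (Ioi 0) :=
    mul_int hg.mw h.mw hg.iw h.iw
  have i2 : IntegrableOn (fun x => x * ((-M k 1 x) * v x)) (Ioi 0) :=
    mul_int hg.mv h.mv hg.iv h.iv
  have i3 : IntegrableOn (fun x => x * (M k 0 x * u x)) (Ioi 0) :=
    mul_int hg.mu h.mu hg.iu h.iu
  let Φ : ℝ → ℝ := fun x => x * M k 2 x * v x - (M k 2 x - x * M k 3 x) * u x +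
    lam * (x * M k 1 x) * u x
  have hM20 : M k 2 0 = 0 := by
    rw [M2_zero hk0 hk1]; linarith
  have hΦ0 : Φ 0 = 0 := by
    simp [Φ, hM20]
  have hMt : ∀ j, Tendsto (M k j) (𝓝[>] 0) (𝓝 (M k j 0)) := fun j =>
    ((M_cont hk0 hk1 j).tendsto 0).mono_left nhdsWithin_le_nhds
  have hx : Tendsto (fun x : ℝ => x) (𝓝[>] 0) (𝓝 0) := tendsto_id.mono_left nhdsWithin_le_nhds
  have hcont : ContinuousWithinAt Φ (Ici 0) 0 := by
    rw [← continuousWithinAt_Ioi_iff_Ici, ContinuousWithinAt, hΦ0]
    obtain ⟨L, hL⟩ := h.ulim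
    have t1 : Tendsto (fun x => M k 2 x * (x * v x)) (𝓝[>] 0) (𝓝 (M k 2 0 * 0)) :=
      (hMt 2).mul h.xv_zero
    have t2 : Tendsto (fun x => (M k 2 x - x * M k 3 x) * u x) (𝓝[>] 0)
        (𝓝 ((M k 2 0 - 0 * M k 3 0) * L)) := ((hMt 2).sub (hx.mul (hMt 3))).mul hL
    have t3 : Tendsto (fun x => lam * (x * M k 1 x) * u x) (𝓝[>] 0)
        (𝓝 (lam * (0 * M k 1 0) * L)) := ((hx.mul (hMt 1)).const_mul lam).mul hL
    have t4 := (t1.sub t2).add t3
    have e0 : M k 2 0 * 0 - (M k 2 0 - 0 * M k 3 0) * L + lam * (0 * M k 1 0) * L = 0 := by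
      rw [hM20]; ring
    rw [e0] at t4
    refine t4.congr fun x => ?_
    simp only [Φ]
    ring
  have hderiv : ∀ x ∈ Ioi (0 : ℝ), HasDerivAt Φ (x * (M k 2 x * w x) -
      lam * (x * ((-M k 1 x) * v x)) + x * (M k 0 x * u x)) x := by
    intro x hx
    have hx0 : (0 : ℝ) < x := hx
    have du := h.hu x hx0
    have dv := h.hv x hx0
    have d0 := M_deriv hk0 hk1 0 x
    have d1 := M_deriv hk0 hk1 1 x
    have d2 := M_deriv hk0 hk1 2 x
    have d3 := M_deriv hk0 hk1 3 x
    have dx := hasDerivAt_id x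
    have key := (((dx.mul d2).mul dv).sub ((d2.sub (dx.mul d3)).mul du)).add
      (((dx.mul d1).const_mul lam).mul du)
    refine key.congr_deriv ?_
    have ho := ode hk0 hk1 x
    rw [← hlam] at ho
    simp
    linear_combination (-(u x)) * ho
  have hinf : Tendsto Φ atTop (𝓝 0) := by
    obtain ⟨C, hC, hgr⟩ := h.growth
    set d : ℝ := √(1 - k ^ 2) with hd
    have hdp : 0 < d := dl_pos hk0 hk1
    set c : ℝ := Real.pi / 2 / d with hc
    have hcp : 0 < c := by positivity
    have hb : Tendsto (fun x => (3 + |lam|) * (c * C) * (x ^ 3 * Real.exp (-(d * x)))) atTop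
        (𝓝 0) := by
      simpa using (x3exp hk0 hk1 hdp).const_mul ((3 + |lam|) * (c * C))
    refine squeeze_zero_norm' ?_ hb
    filter_upwards [eventually_ge_atTop 1] with x hx1
    have hx0 : 0 < x := by linarith
    obtain ⟨gv, gu⟩ := hgr x hx1
    have m1 := M_decay hk0 hk1 1 hx0.le
    have m2 := M_decay hk0 hk1 2 hx0.le
    have m3 := M_decay hk0 hk1 3 hx0.le
    rw [← hd, ← hc] at m1 m2 m3
    set E : ℝ := Real.exp (-(d * x)) with hE
    have hEp : 0 < E := Real.exp_pos _
    have p : ∀ {m y : ℝ}, |m| ≤ c * E → |y| ≤ C * x ^ 2 → |x * m * y| ≤ c * C * (x ^ 3 * E) := by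
      intro m y hm hy
      rw [abs_mul, abs_mul, abs_of_pos hx0]
      calc x * |m| * |y| ≤ x * (c * E) * (C * x ^ 2) := by
            refine mul_le_mul (mul_le_mul_of_nonneg_left hm hx0.le) hy (abs_nonneg _) (by positivity)
        _ = c * C * (x ^ 3 * E) := by ring
    have q : ∀ {m y : ℝ}, |m| ≤ c * E → |y| ≤ C * x ^ 2 → |m * y| ≤ c * C * (x ^ 3 * E) := by
      intro m y hm hy
      rw [abs_mul]
      calc |m| * |y| ≤ (c * E) * (C * x ^ 2) := mul_le_mul hm hy (abs_nonneg _) (by positivity)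
        _ = c * C * (x ^ 2 * E) := by ring
        _ ≤ c * C * (x ^ 3 * E) := by
          refine mul_le_mul_of_nonneg_left (mul_le_mul_of_nonneg_right ?_ hEp.le) (by positivity)
          exact pow_le_pow_right₀ hx1 (by norm_num)
    have b1 := p m2 gv
    have b2 := q m2 gu
    have b3 := p m3 gu
    have b4 := p m1 gu
    rw [Real.norm_eq_abs]
    have e1 : Φ x = x * M k 2 x * v x - M k 2 x * u x + x * M k 3 x * u x +
        lam * (x * M k 1 x * u x) := by
      simp only [Φ]; ring
    rw [e1]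
    have t1 := abs_add_le (x * M k 2 x * v x - M k 2 x * u x + x * M k 3 x * u x)
      (lam * (x * M k 1 x * u x))
    have t2 := abs_add_le (x * M k 2 x * v x - M k 2 x * u x) (x * M k 3 x * u x)
    have t3 := abs_sub (x * M k 2 x * v x) (M k 2 x * u x)
    have t4 : |lam * (x * M k 1 x * u x)| ≤ |lam| * (c * C * (x ^ 3 * E)) := by
      rw [abs_mul]
      exact mul_le_mul_of_nonneg_left b4 (abs_nonneg _)
    nlinarith
  have := integral_Ioi_of_hasDerivAt_of_tendsto hcont hderiv
    ((i1.sub (i2.const_mul lam)).add i3) hinf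
  rw [this, hΦ0, sub_zero]

end

end Pool.Agent.X154.WHL
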