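import Pool.Agent.X154.WHL.B

/-!
Weighted Hardy-Littlewood inequality: the equation `2 E(k) = K(k)` has exactly one solution in
`(0, 1)`.
-/

set_option autoImplicit false
set_option linter.unusedSectionVars false

open MeasureTheory Set Filter Topology

namespace Pool.Agent.X154.WHL

/-- `2 E(k) - K(k)`. -/
noncomputable def Th (k : ℝ) : ℝ := ∫ u in (0 : ℝ)..(Real.pi / 2), (2 * D k u - 1 / D k u)

section
variable {k : ℝ} (hk0 : 0 < k) (hk1 : k < 1)
include hk0 hk1

theorem iD : IntervalIntegrable (fun u => D k u) volume 0 (Real.pi / 2) :=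
  (D_cont hk0 hk1).intervalIntegrable _ _

theorem iDi : IntervalIntegrable (fun u => 1 / D k u) volume 0 (Real.pi / 2) :=
  (continuous_const.div (D_cont hk0 hk1) fun u => (D_pos hk0 hk1 u).ne').intervalIntegrable _ _

theorem Th_eq : Th k = 2 * ellE k - ellK k := by
  rw [Th, intervalIntegral.integral_sub ((iD hk0 hk1).const_mul 2) (iDi hk0 hk1),
    intervalIntegral.integral_const_mul]
  rfl

theorem Th_pos (h2 : 2 * k ^ 2 ≤ 1) : 0 < Th k := by
  refine intervalIntegral.intervalIntegral_pos_of_pos_on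
    (((iD hk0 hk1).const_mul 2).sub (iDi hk0 hk1)) (fun u hu => ?_) (by positivity)
  have hD := D_pos hk0 hk1 u
  have hs := D_sq hk0 hk1 u
  have hc : 0 < Real.cos u := Real.cos_pos_of_mem_Ioo ⟨by linarith [hu.1, Real.pi_pos], hu.2⟩
  have h3 := Real.sin_sq_add_cos_sq u
  have h4 : 0 < 2 * D k u ^ 2 - 1 := by
    rw [hs]
    nlinarith [sq_nonneg (Real.sin u), mul_pos hc hc]
  have e : 2 * D k u - 1 / D k u = (2 * D k u ^ 2 - 1) / D k u := by
    field_simp
  rw [e]
  exact div_pos h4 hD

end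

theorem Th_anti {k k' : ℝ} (hk0 : 0 < k) (hkk : k < k') (hk1 : k' < 1) : Th k' < Th k := by
  have a0 : k < 1 := lt_trans hkk hk1
  have b0 : 0 < k' := lt_trans hk0 hkk
  have hp : 0 < ∫ u in (0 : ℝ)..(Real.pi / 2), ((2 * D k u - 1 / D k u) -
      (2 * D k' u - 1 / D k' u)) := by
    refine intervalIntegral.intervalIntegral_pos_of_pos_on
      ((((iD hk0 a0).const_mul 2).sub (iDi hk0 a0)).sub
        (((iD b0 hk1).const_mul 2).sub (iDi b0 hk1))) (fun u hu => ?_) (by positivity)
    have hD := D_pos hk0 a0 u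
    have hD' := D_pos b0 hk1 u
    have hs : 0 < Real.sin u := Real.sin_pos_of_pos_of_lt_pi hu.1 (by linarith [hu.2, Real.pi_pos])
    have h1 : D k' u ^ 2 < D k u ^ 2 := by
      rw [D_sq hk0 a0, D_sq b0 hk1]
      have : k ^ 2 < k' ^ 2 := by nlinarith
      nlinarith [mul_pos hs hs]
    have h2 : D k' u < D k u := lt_of_pow_lt_pow_left₀ 2 hD.le h1
    have h3 : 1 / D k u < 1 / D k' u := one_div_lt_one_div_of_lt hD' h2
    linarith
  rw [intervalIntegral.integral_sub (((iD hk0 a0).const_mul 2).sub (iDi hk0 a0))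
    (((iD b0 hk1).const_mul 2).sub (iDi b0 hk1))] at hp
  rw [Th, Th]
  linarith

theorem Th_neg : Th (√(99 / 100)) < 0 := by
  set k : ℝ := √(99 / 100) with hk
  have hk2 : k ^ 2 = 99 / 100 := by rw [hk, Real.sq_sqrt (by norm_num)]
  have hk0 : 0 < k := Real.sqrt_pos.2 (by norm_num)
  have hk1 : k < 1 := by nlinarith
  rw [Th_eq hk0 hk1]
  have hDle : ∀ u ∈ Icc (0 : ℝ) (Real.pi / 2), D k u ≤ Real.cos u + 1 / 10 := by
    intro u hu
    have hc : 0 ≤ Real.cos u := Real.cos_nonneg_of_mem_Icc ⟨by linarith [hu.1, Real.pi_pos], hu.2⟩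
    have hs := D_sq hk0 hk1 u
    refine (pow_le_pow_iff_left₀ (D_pos hk0 hk1 u).le (by linarith) two_ne_zero).1 ?_
    rw [hs, hk2]
    nlinarith [Real.sin_sq_add_cos_sq u, Real.sin_sq_le_one u]
  have hE : ellE k ≤ 1 + Real.pi / 20 := by
    have h1 : ellE k ≤ ∫ u in (0 : ℝ)..(Real.pi / 2), (Real.cos u + 1 / 10) := by
      refine intervalIntegral.integral_mono_on (by positivity) (iD hk0 hk1) ?_ hDle
      exact (by fun_prop : Continuous fun u => Real.cos u + 1 / 10).intervalIntegrable _ _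
    rw [intervalIntegral.integral_add (Real.continuous_cos.intervalIntegrable _ _)
      intervalIntegrable_const] at h1
    simp at h1
    linarith
  have hpi : 3 < Real.pi := Real.pi_gt_three
  have hpi2 : Real.pi < 3.15 := Real.pi_lt_d2
  have hK : Real.log 16 ≤ ellK k := by
    have h1 : ∫ u in (0 : ℝ)..(Real.pi / 2), (1 / (Real.pi / 2 + 1 / 10 - u)) ≤ ellK k := by
      refine intervalIntegral.integral_mono_on (by positivity) ?_ (iDi hk0 hk1) fun u hu => ?_
      · refine ContinuousOn.intervalIntegrable ?_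
        refine ContinuousOn.div continuousOn_const (by fun_prop) fun u hu => ?_
        rw [uIcc_of_le (by positivity)] at hu
        have := hu.2
        intro h0
        linarith
      · have h2 := hDle u hu
        have h3 : Real.cos u ≤ Real.pi / 2 - u := by
          rw [← Real.sin_pi_div_two_sub]
          exact Real.sin_le (by linarith [hu.2])
        change _ ≤ 1 / D k u
        exact one_div_le_one_div_of_le (D_pos hk0 hk1 u) (by linarith)
    have h2 : ∫ u in (0 : ℝ)..(Real.pi / 2), (1 / (Real.pi / 2 + 1 / 10 - u)) =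
        - Real.log (Real.pi / 2 + 1 / 10 - Real.pi / 2) - - Real.log (Real.pi / 2 + 1 / 10 - 0) := by
      refine intervalIntegral.integral_eq_sub_of_hasDerivAt
        (f := fun u => - Real.log (Real.pi / 2 + 1 / 10 - u)) (fun u hu => ?_) ?_
      · rw [uIcc_of_le (by positivity)] at hu
        have hne : Real.pi / 2 + 1 / 10 - u ≠ 0 := by
          have := hu.2
          intro h0
          linarith
        have := (((hasDerivAt_id u).const_sub (Real.pi / 2 + 1 / 10)).log hne).neg
        refine this.congr_deriv ?_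
        simp [neg_div]
      · refine ContinuousOn.intervalIntegrable ?_
        refine ContinuousOn.div continuousOn_const (by fun_prop) fun u hu => ?_
        rw [uIcc_of_le (by positivity)] at hu
        have := hu.2
        intro h0
        linarith
    rw [h2] at h1
    have e1 : Real.pi / 2 + 1 / 10 - Real.pi / 2 = 1 / 10 := by ring
    rw [e1, sub_zero] at h1
    have h3 : Real.log 16 ≤ Real.log (Real.pi / 2 + 1 / 10) - Real.log (1 / 10) := by
      rw [← Real.log_div (by positivity) (by norm_num)]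
      refine Real.log_le_log (by norm_num) ?_
      rw [le_div_iff₀ (by norm_num)]
      linarith
    linarith
  have h16 : Real.log 16 = 4 * Real.log 2 := by
    have : (16 : ℝ) = 2 ^ 4 := by norm_num
    rw [this, Real.log_pow]
    norm_num
  have hl2 := Real.log_two_gt_d9
  linarith

theorem Th_cont {c : ℝ} (hc0 : 0 < c) (hc1 : c < 1) : ContinuousOn Th (Icc (1 / 2) c) := by
  let κ : ℝ → ℝ := fun x => max 0 (min x c)
  have hκ : Continuous κ := by fun_prop
  have hκ0 : ∀ x, 0 ≤ κ x := fun x => le_max_left _ _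
  have hκ1 : ∀ x, κ x ≤ c := fun x => max_le hc0.le (min_le_right _ _)
  have hpos : ∀ x u : ℝ, 0 < 1 - κ x ^ 2 * Real.sin u ^ 2 := by
    intro x u
    have h1 : κ x ^ 2 ≤ c ^ 2 := pow_le_pow_left₀ (hκ0 x) (hκ1 x) 2
    have h2 : c ^ 2 < 1 := by nlinarith
    nlinarith [Real.sin_sq_le_one u, sq_nonneg (Real.sin u), sq_nonneg (κ x)]
  have hF : Continuous (Function.uncurry fun x u : ℝ =>
      2 * √(1 - κ x ^ 2 * Real.sin u ^ 2) - 1 / √(1 - κ x ^ 2 * Real.sin u ^ 2)) := by
    have h1 : Continuous fun p : ℝ × ℝ => √(1 - κ p.1 ^ 2 * Real.sin p.2 ^ 2) := by fun_prop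
    refine (h1.const_mul 2 |>.sub (continuous_const.div h1 fun p => ?_))
    exact (Real.sqrt_pos.2 (hpos p.1 p.2)).ne'
  have h3 : Continuous fun x => ∫ u in (0 : ℝ)..(Real.pi / 2),
      (2 * √(1 - κ x ^ 2 * Real.sin u ^ 2) - 1 / √(1 - κ x ^ 2 * Real.sin u ^ 2)) :=
    intervalIntegral.continuous_parametric_intervalIntegral_of_continuous' hF 0 (Real.pi / 2)
  refine h3.continuousOn.congr fun x hx => ?_
  have e : κ x = x := by
    simp only [κ]
    rw [min_eq_left hx.2, max_eq_right (by linarith [hx.1])]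
  simp only [Th, D, e]

/-- The equation `2 E(k) = K(k)` has exactly one solution in `(0, 1)`. -/
theorem exists_root : ∃ k : ℝ, 0 < k ∧ k < 1 ∧ 2 * ellE k = ellK k ∧ 1 < 2 * k ^ 2 ∧
    ∀ k' : ℝ, 0 < k' → k' < 1 → 2 * ellE k' = ellK k' → k' = k := by
  set c : ℝ := √(99 / 100) with hc
  have hc2 : c ^ 2 = 99 / 100 := by rw [hc, Real.sq_sqrt (by norm_num)]
  have hc0 : 0 < c := Real.sqrt_pos.2 (by norm_num)
  have hc1 : c < 1 := by nlinarith
  have hch : 1 / 2 ≤ c := by nlinarith
  have hIVT := intermediate_value_Icc' hch (Th_cont hc0 hc1)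
  have h0 : (0 : ℝ) ∈ Icc (Th c) (Th (1 / 2)) :=
    ⟨Th_neg.le, (Th_pos (by norm_num) (by norm_num) (by norm_num)).le⟩
  obtain ⟨k, hk, hk2⟩ := hIVT h0
  have hk0 : 0 < k := by linarith [hk.1]
  have hk1 : k < 1 := lt_of_le_of_lt hk.2 hc1
  refine ⟨k, hk0, hk1, ?_, ?_, ?_⟩
  · rw [Th_eq hk0 hk1] at hk2
    linarith
  · by_contra hneg
    push Not at hneg
    have := Th_pos hk0 hk1 hneg
    linarith
  · intro k' h0' h1' h2'
    have h3 : Th k' = 0 := by
      rw [Th_eq h0' h1']
      linarith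
    rcases lt_trichotomy k' k with h | h | h
    · have := Th_anti h0' h hk1
      linarith
    · exact h
    · have := Th_anti hk0 h h1'
      linarith

end Pool.Agent.X154.WHL
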