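import Pool.Agent.X154.WHL.C
import Pool.Agent.X154.WHL.E

/-!
Weighted Hardy-Littlewood inequality: the sharp inequality.
-/

set_option autoImplicit false
set_option linter.unusedSectionVars false

open MeasureTheory Set Filter Topology

namespace Pool.Agent.X154.WHL

namespace Adm

variable {u v w : ℝ → ℝ}

theorem sub_smul {u' v' w' : ℝ → ℝ} (h : Adm u v w) (h' : Adm u' v' w') (t : ℝ) :
    Adm (fun x => u x - t * u' x) (fun x => v x - t * v' x) (fun x => w x - t * w' x) := by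
  have key : ∀ {a b : ℝ → ℝ}, AEStronglyMeasurable a (volume.restrict (Ioi 0)) →
      AEStronglyMeasurable b (volume.restrict (Ioi 0)) →
      IntegrableOn (fun x => x * a x ^ 2) (Ioi 0) → IntegrableOn (fun x => x * b x ^ 2) (Ioi 0) →
      IntegrableOn (fun x => x * (a x - t * b x) ^ 2) (Ioi 0) := by
    intro a b ma mb ia ib
    have h1 := (ia.sub ((mul_int ma mb ia ib).const_mul (2 * t))).add (ib.const_mul (t ^ 2))
    refine h1.congr (Eventually.of_forall fun x => ?_)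
    simp only [Pi.add_apply, Pi.sub_apply]
    ring
  exact ⟨fun x hx => (h.hu x hx).sub ((h'.hu x hx).const_mul t),
    fun x hx => (h.hv x hx).sub ((h'.hv x hx).const_mul t),
    h.mw.sub (h'.mw.const_mul t), key h.mu h'.mu h.iu h'.iu, key h.mw h'.mw h.iw h'.iw⟩

/-- Dilations. -/
theorem scale (h : Adm u v w) (hw : Measurable w) {s : ℝ} (hs : 0 < s) :
    Adm (fun x => u (s * x)) (fun x => s * v (s * x)) (fun x => s ^ 2 * w (s * x)) := by
  have key : ∀ {a : ℝ → ℝ} (c : ℝ), IntegrableOn (fun x => x * a x ^ 2) (Ioi 0) →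
      IntegrableOn (fun x => x * (c * a (s * x)) ^ 2) (Ioi 0) := by
    intro a c ia
    have h1 : IntegrableOn (fun x => (s * x) * a (s * x) ^ 2) (Ioi 0) := by
      have := (integrableOn_Ioi_comp_mul_left_iff (fun x => x * a x ^ 2) 0 hs).2
        (by rwa [mul_zero])
      exact this
    have h2 := h1.const_mul (c ^ 2 / s)
    refine h2.congr (Eventually.of_forall fun x => ?_)
    field_simp
  have hd : ∀ x : ℝ, HasDerivAt (fun x => s * x) s x := fun x => by
    simpa using (hasDerivAt_id x).const_mul s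
  refine ⟨fun x hx => ?_, fun x hx => ?_, ?_, ?_, key (s ^ 2) h.iw⟩
  · have := (h.hu (s * x) (mul_pos hs hx)).comp x (hd x)
    exact this.congr_deriv (by ring)
  · have := ((h.hv (s * x) (mul_pos hs hx)).comp x (hd x)).const_mul s
    exact this.congr_deriv (by ring)
  · exact ((hw.comp (measurable_const.mul measurable_id)).const_mul _).aestronglyMeasurable
  · have := key (a := u) 1 h.iu
    simpa using this

theorem int_scale (a : ℝ → ℝ) (c : ℝ) {s : ℝ} (hs : 0 < s) :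
    ∫ x in Ioi 0, x * (c * a (s * x)) ^ 2 = c ^ 2 / s ^ 2 * ∫ x in Ioi 0, x * a x ^ 2 := by
  have h1 := integral_comp_mul_left_Ioi (fun x => x * a x ^ 2) 0 hs
  rw [mul_zero, smul_eq_mul] at h1
  have h2 : ∫ x in Ioi 0, x * (c * a (s * x)) ^ 2 =
      ∫ x in Ioi 0, c ^ 2 / s * (s * x * a (s * x) ^ 2) := by
    refine setIntegral_congr_fun measurableSet_Ioi fun x _ => ?_
    field_simp
  rw [h2, integral_const_mul, h1]
  field_simp

end Adm

section
variable {k : ℝ} (hk0 : 0 < k) (hk1 : k < 1)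
include hk0 hk1

theorem int_Fq {u v w : ℝ → ℝ} (h : Adm u v w) (lam : ℝ) :
    ∫ x in Ioi 0, Adm.Fq lam u v w x = (∫ x in Ioi 0, x * w x ^ 2) -
      lam * (∫ x in Ioi 0, x * v x ^ 2) + ∫ x in Ioi 0, x * u x ^ 2 := by
  have h1 : ∫ x in Ioi 0, Adm.Fq lam u v w x = ∫ x in Ioi 0,
      ((x * w x ^ 2 - lam * (x * v x ^ 2)) + x * u x ^ 2) := rfl
  have s1 : IntegrableOn (fun x => x * w x ^ 2 - lam * (x * v x ^ 2)) (Ioi 0) :=
    h.iw.sub (h.iv.const_mul lam)
  rw [h1, integral_add s1 h.iu, integral_sub h.iw (h.iv.const_mul lam), integral_const_mul]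

/-- The quadratic form is nonnegative. -/
theorem J_nonneg (hroot : 2 * ellE k = ellK k) {u v w : ℝ → ℝ} (h : Adm u v w) :
    0 ≤ ∫ x in Ioi 0, Adm.Fq (2 * (2 * k ^ 2 - 1)) u v w x := by
  set lam : ℝ := 2 * (2 * k ^ 2 - 1) with hlam
  have hg := g_adm hk0 hk1
  obtain ⟨L, hL⟩ := h.ulim
  have hK := ellK_pos hk0 hk1
  set t : ℝ := L / ellK k with ht
  have h' := h.sub_smul hg t
  have hg0 : Tendsto (M k 0) (𝓝[>] 0) (𝓝 (ellK k)) := by
    rw [← M0_zero hk0 hk1]
    exact ((M_cont hk0 hk1 0).tendsto 0).mono_left nhdsWithin_le_nhds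
  have h0 : Tendsto (fun x => u x - t * M k 0 x) (𝓝[>] 0) (𝓝 0) := by
    have := hL.sub (hg0.const_mul t)
    have e : L - t * ellK k = 0 := by
      rw [ht]
      field_simp
      ring
    rwa [e] at this
  have ha : 0 < 2 * √(1 - k ^ 2) := by
    have := dl_pos hk0 hk1
    positivity
  have h1 := h'.form_nonneg h0 ha
  have hlam2 : 2 - (2 * √(1 - k ^ 2)) ^ 2 = lam := by
    rw [mul_pow, Real.sq_sqrt (by linarith [k2lt hk0 hk1]), hlam]
    ring
  rw [hlam2] at h1
  have o1 := orth hk0 hk1 hroot h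
  have o2 := orth hk0 hk1 hroot hg
  rw [← hlam] at o1 o2
  have c1 : IntegrableOn (fun x => x * (M k 2 x * w x) - lam * (x * ((-M k 1 x) * v x)) +
      x * (M k 0 x * u x)) (Ioi 0) :=
    ((mul_int hg.mw h.mw hg.iw h.iw).sub ((mul_int hg.mv h.mv hg.iv h.iv).const_mul lam)).add
      (mul_int hg.mu h.mu hg.iu h.iu)
  have c2 : IntegrableOn (fun x => x * (M k 2 x * M k 2 x) -
      lam * (x * ((-M k 1 x) * (-M k 1 x))) + x * (M k 0 x * M k 0 x)) (Ioi 0) :=
    ((mul_int hg.mw hg.mw hg.iw hg.iw).sub ((mul_int hg.mv hg.mv hg.iv hg.iv).const_mul lam)).add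
      (mul_int hg.mu hg.mu hg.iu hg.iu)
  have e : ∫ x in Ioi 0, Adm.Fq lam (fun x => u x - t * M k 0 x) (fun x => v x - t * -M k 1 x)
      (fun x => w x - t * M k 2 x) x = ∫ x in Ioi 0, ((Adm.Fq lam u v w x - 2 * t *
        (x * (M k 2 x * w x) - lam * (x * ((-M k 1 x) * v x)) + x * (M k 0 x * u x))) +
        t ^ 2 * (x * (M k 2 x * M k 2 x) - lam * (x * ((-M k 1 x) * (-M k 1 x))) +
          x * (M k 0 x * M k 0 x))) := by
    refine setIntegral_congr_fun measurableSet_Ioi fun x _ => ?_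
    simp only [Adm.Fq]
    ring
  have s1 : IntegrableOn (fun x => Adm.Fq lam u v w x - 2 * t *
      (x * (M k 2 x * w x) - lam * (x * ((-M k 1 x) * v x)) + x * (M k 0 x * u x))) (Ioi 0) :=
    (h.iF lam).sub (c1.const_mul (2 * t))
  rw [e, integral_add s1 (c2.const_mul _),
    integral_sub (h.iF lam) (c1.const_mul _), integral_const_mul, integral_const_mul, o1, o2] at h1
  simpa using h1

/-- The sharp inequality. -/
theorem sharp (hroot : 2 * ellE k = ellK k) (hk2 : 1 < 2 * k ^ 2) {u v w : ℝ → ℝ}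
    (h : Adm u v w) (hw : Measurable w) :
    (2 * (2 * k ^ 2 - 1)) ^ 2 * (∫ x in Ioi 0, x * v x ^ 2) ^ 2 ≤
      4 * (∫ x in Ioi 0, x * w x ^ 2) * ∫ x in Ioi 0, x * u x ^ 2 := by
  set lam : ℝ := 2 * (2 * k ^ 2 - 1) with hlam
  have hlp : 0 < lam := by rw [hlam]; linarith
  set A : ℝ := ∫ x in Ioi 0, x * w x ^ 2 with hA
  set B : ℝ := ∫ x in Ioi 0, x * v x ^ 2 with hB
  set C : ℝ := ∫ x in Ioi 0, x * u x ^ 2 with hC
  have nn : ∀ a : ℝ → ℝ, 0 ≤ ∫ x in Ioi 0, x * a x ^ 2 := fun a =>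
    setIntegral_nonneg measurableSet_Ioi fun x hx => mul_nonneg (le_of_lt hx) (sq_nonneg _)
  have hA0 : 0 ≤ A := nn w
  have hB0 : 0 ≤ B := nn v
  have hC0 : 0 ≤ C := nn u
  have hs : ∀ s : ℝ, 0 < s → 0 ≤ s ^ 2 * A - lam * B + C / s ^ 2 := by
    intro s hs
    have h1 := J_nonneg hk0 hk1 hroot (h.scale hw hs)
    rw [int_Fq hk0 hk1 (h.scale hw hs), ← hlam, Adm.int_scale w (s ^ 2) hs,
      Adm.int_scale v s hs] at h1
    have h2 := Adm.int_scale u 1 hs
    simp only [one_mul] at h2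
    rw [h2, ← hA, ← hB, ← hC] at h1
    have e1 : (s ^ 2) ^ 2 / s ^ 2 = s ^ 2 := by field_simp
    have e2 : s ^ 2 / s ^ 2 = 1 := by field_simp
    rw [e1, e2] at h1
    have e3 : 1 ^ 2 / s ^ 2 * C = C / s ^ 2 := by ring
    rw [e3] at h1
    linarith
  have hq : ∀ τ : ℝ, 0 ≤ A * (τ * τ) + (-(lam * B)) * τ + C := by
    intro τ
    rcases le_or_gt τ 0 with hτ | hτ
    · have : 0 ≤ -(lam * B) * τ := by
        have h3 : 0 ≤ lam * B := by positivity
        nlinarith
      have h4 : 0 ≤ A * (τ * τ) := mul_nonneg hA0 (mul_self_nonneg _)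
      linarith
    · have h3 := hs (√τ) (Real.sqrt_pos.2 hτ)
      rw [Real.sq_sqrt hτ.le] at h3
      have h4 : A * (τ * τ) + (-(lam * B)) * τ + C = τ * (τ * A - lam * B + C / τ) := by
        field_simp
        ring
      rw [h4]
      exact mul_nonneg hτ.le h3
  have hd := discrim_le_zero hq
  rw [discrim] at hd
  nlinarith

/-- The extremal function. -/
theorem extremal (hroot : 2 * ellE k = ellK k) (hk2 : 1 < 2 * k ^ 2) :
    (2 * (2 * k ^ 2 - 1)) ^ 2 * (∫ x in Ioi 0, x * (-M k 1 x) ^ 2) ^ 2 =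
      4 * (∫ x in Ioi 0, x * M k 2 x ^ 2) * (∫ x in Ioi 0, x * M k 0 x ^ 2) ∧
    0 < (∫ x in Ioi 0, x * M k 2 x ^ 2) * (∫ x in Ioi 0, x * M k 0 x ^ 2) := by
  have hg := g_adm hk0 hk1
  have h1 := sharp hk0 hk1 hroot hk2 hg (M_cont hk0 hk1 2).measurable
  have h2 := orth hk0 hk1 hroot hg
  have h3 := int_Fq hk0 hk1 hg (2 * (2 * k ^ 2 - 1))
  have e : ∫ x in Ioi 0, Adm.Fq (2 * (2 * k ^ 2 - 1)) (M k 0) (fun x => -M k 1 x) (M k 2) x =
      ∫ x in Ioi 0, (x * (M k 2 x * M k 2 x) - 2 * (2 * k ^ 2 - 1) *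
        (x * ((-M k 1 x) * (-M k 1 x))) + x * (M k 0 x * M k 0 x)) := by
    refine setIntegral_congr_fun measurableSet_Ioi fun x _ => ?_
    simp only [Adm.Fq]
    ring
  rw [e, h2] at h3
  set lam : ℝ := 2 * (2 * k ^ 2 - 1) with hlam
  set A : ℝ := ∫ x in Ioi 0, x * M k 2 x ^ 2 with hA
  set B : ℝ := ∫ x in Ioi 0, x * (-M k 1 x) ^ 2 with hB
  set C : ℝ := ∫ x in Ioi 0, x * M k 0 x ^ 2 with hC
  have hlB : lam * B = A + C := by linarith
  have hsq : (A - C) ^ 2 ≤ 0 := by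
    have : lam ^ 2 * B ^ 2 = (A + C) ^ 2 := by rw [← mul_pow, hlB]
    nlinarith
  have hAC : A = C := by
    have := pow_eq_zero_iff (two_ne_zero) |>.1 (le_antisymm hsq (sq_nonneg (A - C)))
    linarith
  have hCpos : 0 < C := by
    have hC0 : 0 ≤ C := setIntegral_nonneg measurableSet_Ioi
      fun x hx => mul_nonneg (le_of_lt hx) (sq_nonneg _)
    rcases hC0.lt_or_eq with h | h
    · exact h
    · exfalso
      have hz : (fun x => x * M k 0 x ^ 2) =ᵐ[volume.restrict (Ioi 0)] 0 := by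
        refine (setIntegral_eq_zero_iff_of_nonneg_ae ?_ hg.iu).1 (hC ▸ h.symm)
        refine (ae_restrict_iff' measurableSet_Ioi).2 (Eventually.of_forall fun x hx => ?_)
        exact mul_nonneg (le_of_lt hx) (sq_nonneg _)
      have hc0 : Continuous (M k 0) := M_cont hk0 hk1 0
      have hpos : 0 < M k 0 0 := by
        rw [M0_zero hk0 hk1]
        exact ellK_pos hk0 hk1
      have hev : ∀ᶠ x in 𝓝 (0 : ℝ), 0 < M k 0 x := (hc0.tendsto 0).eventually (lt_mem_nhds hpos)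
      obtain ⟨ε, hε, hball⟩ := Metric.eventually_nhds_iff.1 hev
      have hne : volume (Ioo (0 : ℝ) ε) ≠ 0 := by
        rw [Real.volume_Ioo]
        simp [hε]
      refine hne ?_
      rw [Filter.EventuallyEq, ae_restrict_iff' measurableSet_Ioi, ae_iff] at hz
      refine measure_mono_null (fun x hx => ?_) hz
      intro hcontra
      have h4 := hcontra hx.1
      have h5 : 0 < M k 0 x := hball (by
        rw [Real.dist_eq, sub_zero, abs_of_pos hx.1]; exact hx.2)
      have h6 : 0 < x * M k 0 x ^ 2 := mul_pos hx.1 (by positivity)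
      simp only [Pi.zero_apply] at h4
      linarith
  refine ⟨?_, ?_⟩
  · rw [← mul_pow, hlB, hAC]
    ring
  · rw [hAC]
    positivity

end

end Pool.Agent.X154.WHL
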